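import Pool.Agent.Helper79.HC.Defs

/-!
# Module HC-13a: the number of cells of the big cluster
-/

namespace Pool.Agent.Helper79.HC

open MeasureTheory Set

namespace CB

theorem w0 (A : ℤ) (c : ℤ × ℤ) : w A 0 c = A - c.1 := rfl
theorem w1 (A : ℤ) (c : ℤ × ℤ) : w A 1 c = A - c.1 - c.2 := rfl
theorem w2 (A : ℤ) (c : ℤ × ℤ) : w A 2 c = A - c.2 := rfl
theorem w3 (A : ℤ) (c : ℤ × ℤ) : w A 3 c = A + c.1 := rfl
theorem w4 (A : ℤ) (c : ℤ × ℤ) : w A 4 c = A + c.1 + c.2 := rfl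
theorem w5 (A : ℤ) (c : ℤ × ℤ) : w A 5 c = A + c.2 := rfl

theorem forall6 {p : Fin 6 → Prop} : (∀ k, p k) ↔ p 0 ∧ p 1 ∧ p 2 ∧ p 3 ∧ p 4 ∧ p 5 := by
  constructor
  · intro h; exact ⟨h 0, h 1, h 2, h 3, h 4, h 5⟩
  · rintro ⟨h0, h1, h2, h3, h4, h5⟩ k
    fin_cases k
    · exact h0
    · exact h1
    · exact h2
    · exact h3
    · exact h4
    · exact h5

/-- the inverse of `c ↦ (w_k c, w_(k+1) c)` -/
def inv6 (A : ℤ) (k : Fin 6) (p : ℤ × ℤ) : ℤ × ℤ :=
  match k with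
  | 0 => (A - p.1, p.1 - p.2)
  | 1 => (p.2 - p.1, A - p.2)
  | 2 => (p.2 - A, A - p.1)
  | 3 => (p.1 - A, p.2 - p.1)
  | 4 => (p.1 - p.2, p.2 - A)
  | 5 => (A - p.2, p.1 - A)

theorem w_inv6 (A : ℤ) (k : Fin 6) (p : ℤ × ℤ) :
    w A k (inv6 A k p) = p.1 ∧ w A (k + 1) (inv6 A k p) = p.2 := by
  revert k
  rw [forall6]
  refine ⟨⟨?_, ?_⟩, ⟨?_, ?_⟩, ⟨?_, ?_⟩, ⟨?_, ?_⟩, ⟨?_, ?_⟩, ⟨?_, ?_⟩⟩
  · show A - (A - p.1) = p.1; ring
  · show A - (A - p.1) - (p.1 - p.2) = p.2; ring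
  · show A - (p.2 - p.1) - (A - p.2) = p.1; ring
  · show A - (A - p.2) = p.2; ring
  · show A - (A - p.1) = p.1; ring
  · show A + (p.2 - A) = p.2; ring
  · show A + (p.1 - A) = p.1; ring
  · show A + (p.1 - A) + (p.2 - p.1) = p.2; ring
  · show A + (p.1 - p.2) + (p.2 - A) = p.1; ring
  · show A + (p.2 - A) = p.2; ring
  · show A + (p.1 - A) = p.1; ring
  · show A - (A - p.2) = p.2; ring

theorem inv6_w (A : ℤ) (k : Fin 6) (c : ℤ × ℤ) : inv6 A k (w A k c, w A (k + 1) c) = c := by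
  revert k
  rw [forall6]
  refine ⟨?_, ?_, ?_, ?_, ?_, ?_⟩
  · show (A - (A - c.1), A - c.1 - (A - c.1 - c.2)) = c; ext <;> ring
  · show (A - c.2 - (A - c.1 - c.2), A - (A - c.2)) = c; ext <;> ring
  · show (A + c.1 - A, A - (A - c.2)) = c; ext <;> ring
  · show (A + c.1 - A, A + c.1 + c.2 - (A + c.1)) = c; ext <;> ring
  · show (A + c.1 + c.2 - (A + c.2), A + c.2 - A) = c; ext <;> ring
  · show (A - (A - c.1), A + c.2 - A) = c; ext <;> ring

theorem w_inj (A : ℤ) (k : Fin 6) {c c' : ℤ × ℤ} (h1 : w A k c = w A k c')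
    (h2 : w A (k + 1) c = w A (k + 1) c') : c = c' := by
  rw [← inv6_w A k c, ← inv6_w A k c', h1, h2]

/-- the hexagon -/
noncomputable def Hx (A : ℤ) : Finset (ℤ × ℤ) :=
  (Finset.Icc (-A) A ×ˢ Finset.Icc (-A) A).filter (fun c => -A ≤ c.1 + c.2 ∧ c.1 + c.2 ≤ A)

theorem mem_Hx {A : ℤ} {c : ℤ × ℤ} : c ∈ Hx A ↔ ∀ k, 0 ≤ w A k c := by
  rw [forall6, Hx, Finset.mem_filter, Finset.mem_product, Finset.mem_Icc, Finset.mem_Icc,
    w0, w1, w2, w3, w4, w5]
  omega

theorem card_Hx {A : ℤ} (hA : 0 ≤ A) : ((Hx A).card : ℤ) = 3 * A ^ 2 + 3 * A + 1 := by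
  classical
  have e1 : Hx A = (({(0, 0)} ∪ (Finset.Icc 1 A ×ˢ Finset.Icc (-A) 0)) ∪
      (Finset.Icc 1 A ×ˢ Finset.Icc (-A) 0).image (fun p : ℤ × ℤ => (-p.1 - p.2, p.1))) ∪
      (Finset.Icc 1 A ×ˢ Finset.Icc (-A) 0).image (fun p : ℤ × ℤ => (p.2, -p.1 - p.2)) := by
    ext ⟨i, j⟩
    simp only [Hx, Finset.mem_filter, Finset.mem_product, Finset.mem_Icc, Finset.mem_union,
      Finset.mem_singleton, Finset.mem_image, Prod.mk.injEq, Prod.exists]
    constructor
    · intro h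
      by_cases h1 : 0 < i ∧ j ≤ 0
      · left; left; right; omega
      by_cases h2 : 0 < j ∧ -i - j ≤ 0
      · left; right
        exact ⟨j, -i - j, by omega, by omega, by omega⟩
      by_cases h3 : 0 < -i - j ∧ i ≤ 0
      · right
        exact ⟨-i - j, i, by omega, by omega, by omega⟩
      · left; left; left; omega
    · rintro (((h | h) | ⟨a, b, h, h1, h2⟩) | ⟨a, b, h, h1, h2⟩) <;> omega
  have i1 : Function.Injective (fun p : ℤ × ℤ => ((-p.1 - p.2, p.1) : ℤ × ℤ)) := by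
    rintro ⟨a, b⟩ ⟨a', b'⟩ h
    simp only [Prod.mk.injEq] at h ⊢
    omega
  have i2 : Function.Injective (fun p : ℤ × ℤ => ((p.2, -p.1 - p.2) : ℤ × ℤ)) := by
    rintro ⟨a, b⟩ ⟨a', b'⟩ h
    simp only [Prod.mk.injEq] at h ⊢
    omega
  have hR : ((Finset.Icc 1 A ×ˢ Finset.Icc (-A) 0 : Finset (ℤ × ℤ)).card : ℤ) = A * (A + 1) := by
    rw [Finset.card_product, Int.card_Icc, Int.card_Icc]
    push_cast
    rw [Int.toNat_of_nonneg (by omega), Int.toNat_of_nonneg (by omega)]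
    ring
  rw [e1, Finset.card_union_of_disjoint, Finset.card_union_of_disjoint,
    Finset.card_union_of_disjoint, Finset.card_image_of_injective _ i1,
    Finset.card_image_of_injective _ i2, Finset.card_singleton]
  · push_cast
    rw [hR]; ring
  · rw [Finset.disjoint_left]
    rintro ⟨i, j⟩ h1 h2
    simp only [Finset.mem_product, Finset.mem_Icc, Finset.mem_singleton, Prod.mk.injEq] at h1 h2
    omega
  · rw [Finset.disjoint_left]
    rintro ⟨i, j⟩ h1 h2
    simp only [Finset.mem_product, Finset.mem_Icc, Finset.mem_singleton, Prod.mk.injEq,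
      Finset.mem_union, Finset.mem_image, Prod.exists] at h1 h2
    obtain ⟨a, b, h2⟩ := h2
    omega
  · rw [Finset.disjoint_left]
    rintro ⟨i, j⟩ h1 h2
    simp only [Finset.mem_product, Finset.mem_Icc, Finset.mem_singleton, Prod.mk.injEq,
      Finset.mem_union, Finset.mem_image, Prod.exists] at h1 h2
    obtain ⟨a, b, h2⟩ := h2
    rcases h1 with h1 | ⟨a', b', h1⟩ <;> omega

/-- the triangle -/
noncomputable def Tri (D : ℤ) : Finset (ℤ × ℤ) :=
  (Finset.Icc 0 (D - 3) ×ˢ Finset.Icc 0 (D - 2)).filter (fun p => p.1 + p.2 ≤ D - 3)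

theorem card_Tri {D : ℤ} (hD : 3 ≤ D) : 2 * ((Tri D).card : ℤ) = (D - 2) * (D - 1) := by
  classical
  set S : Finset (ℤ × ℤ) := Finset.Icc 0 (D - 3) ×ˢ Finset.Icc 0 (D - 2) with hS
  have h1 : (S.card : ℤ) = (D - 2) * (D - 1) := by
    rw [hS, Finset.card_product, Int.card_Icc, Int.card_Icc]
    push_cast
    rw [Int.toNat_of_nonneg (by omega), Int.toNat_of_nonneg (by omega)]
    ring
  have h2 := Finset.card_filter_add_card_filter_not (s := S) (fun p => p.1 + p.2 ≤ D - 3)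
  have h3 : (S.filter (fun p => ¬ p.1 + p.2 ≤ D - 3)).card = (Tri D).card := by
    refine Finset.card_nbij' (fun p => (D - 3 - p.1, D - 2 - p.2))
      (fun p => (D - 3 - p.1, D - 2 - p.2)) ?_ ?_ ?_ ?_
    · rintro ⟨a, b⟩ h
      simp only [hS, Tri, Finset.coe_filter, Finset.mem_product, Finset.mem_Icc, mem_ofPred_eq] at h ⊢
      omega
    · rintro ⟨a, b⟩ h
      simp only [hS, Tri, Finset.coe_filter, Finset.mem_product, Finset.mem_Icc, mem_ofPred_eq] at h ⊢
      omega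
    · rintro ⟨a, b⟩ h
      simp only [Prod.mk.injEq]; omega
    · rintro ⟨a, b⟩ h
      simp only [Prod.mk.injEq]; omega
  rw [h3] at h2
  have h4 : (S.filter (fun p => p.1 + p.2 ≤ D - 3)).card = (Tri D).card := rfl
  rw [h4] at h2
  rw [← h1, ← h2]
  push_cast; ring

/-- relations between the distances -/
theorem w_rel (A : ℤ) (c : ℤ × ℤ) (k : Fin 6) :
    w A (k + 2) c = w A (k + 1) c + A - w A k c ∧ w A (k + 3) c = 2 * A - w A k c ∧
    w A (k + 4) c = 2 * A - w A (k + 1) c ∧ w A (k + 5) c = w A k c + A - w A (k + 1) c := by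
  revert k
  rw [forall6]
  refine ⟨⟨?_, ?_, ?_, ?_⟩, ⟨?_, ?_, ?_, ?_⟩, ⟨?_, ?_, ?_, ?_⟩, ⟨?_, ?_, ?_, ?_⟩,
    ⟨?_, ?_, ?_, ?_⟩, ⟨?_, ?_, ?_, ?_⟩⟩
  · show A - c.2 = (A - c.1 - c.2) + A - (A - c.1); ring
  · show A + c.1 = 2 * A - (A - c.1); ring
  · show A + c.1 + c.2 = 2 * A - (A - c.1 - c.2); ring
  · show A + c.2 = (A - c.1) + A - (A - c.1 - c.2); ring
  · show A + c.1 = (A - c.2) + A - (A - c.1 - c.2); ring
  · show A + c.1 + c.2 = 2 * A - (A - c.1 - c.2); ring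
  · show A + c.2 = 2 * A - (A - c.2); ring
  · show A - c.1 = (A - c.1 - c.2) + A - (A - c.2); ring
  · show A + c.1 + c.2 = (A + c.1) + A - (A - c.2); ring
  · show A + c.2 = 2 * A - (A - c.2); ring
  · show A - c.1 = 2 * A - (A + c.1); ring
  · show A - c.1 - c.2 = (A - c.2) + A - (A + c.1); ring
  · show A + c.2 = (A + c.1 + c.2) + A - (A + c.1); ring
  · show A - c.1 = 2 * A - (A + c.1); ring
  · show A - c.1 - c.2 = 2 * A - (A + c.1 + c.2); ring
  · show A - c.2 = (A + c.1) + A - (A + c.1 + c.2); ring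
  · show A - c.1 = (A + c.2) + A - (A + c.1 + c.2); ring
  · show A - c.1 - c.2 = 2 * A - (A + c.1 + c.2); ring
  · show A - c.2 = 2 * A - (A + c.2); ring
  · show A + c.1 = (A + c.1 + c.2) + A - (A + c.2); ring
  · show A - c.1 - c.2 = (A - c.1) + A - (A + c.2); ring
  · show A - c.2 = 2 * A - (A + c.2); ring
  · show A + c.1 = 2 * A - (A - c.1); ring
  · show A + c.1 + c.2 = (A + c.2) + A - (A - c.1); ring

theorem all_of_rel {p : Fin 6 → Prop} (k : Fin 6) (h0 : p k) (h1 : p (k + 1)) (h2 : p (k + 2))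
    (h3 : p (k + 3)) (h4 : p (k + 4)) (h5 : p (k + 5)) (l : Fin 6) : p l := by
  have : l = k + (l - k) := by abel
  rw [this]
  generalize l - k = m
  revert m
  rw [forall6]
  refine ⟨?_, h1, h2, h3, h4, h5⟩
  rwa [add_zero]

theorem card_T1 {A D : ℤ} (hD : 10 ≤ D) (hA : 4 * D ≤ A) (k : Fin 6) :
    ((Hx A).filter (fun c => w A k c + w A (k + 1) c ≤ D - 3)).card = (Tri D).card := by
  refine Finset.card_nbij' (fun c => (w A k c, w A (k + 1) c)) (inv6 A k) ?_ ?_ ?_ ?_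
  · intro c h
    simp only [Finset.coe_filter, mem_ofPred_eq, mem_Hx] at h
    have ha := h.1 k
    have hb := h.1 (k + 1)
    simp only [Tri, Finset.coe_filter, Finset.mem_product, Finset.mem_Icc, mem_ofPred_eq]
    omega
  · intro p h
    simp only [Tri, Finset.coe_filter, Finset.mem_product, Finset.mem_Icc, mem_ofPred_eq] at h
    obtain ⟨e1, e2⟩ := w_inv6 A k p
    obtain ⟨r2, r3, r4, r5⟩ := w_rel A (inv6 A k p) k
    simp only [Finset.coe_filter, mem_ofPred_eq, mem_Hx]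
    refine ⟨fun l => ?_, by omega⟩
    exact all_of_rel (p := fun l => 0 ≤ w A l (inv6 A k p)) k (by omega) (by omega) (by omega)
      (by omega) (by omega) (by omega) l
  · intro c _
    exact inv6_w A k c
  · intro p _
    obtain ⟨e1, e2⟩ := w_inv6 A k p
    show (w A k (inv6 A k p), w A (k + 1) (inv6 A k p)) = p
    rw [e1, e2]

/-- a cell belongs to at most one corner -/
theorem corner_unique {A D : ℤ} (hD : 10 ≤ D) (hA : 4 * D ≤ A) {c : ℤ × ℤ}
    (hc : ∀ k, 0 ≤ w A k c) {k l : Fin 6} (hk : w A k c + w A (k + 1) c ≤ D + 4)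
    (hl : w A l c + w A (l + 1) c ≤ D + 4) : k = l := by
  obtain ⟨r2, r3, r4, r5⟩ := w_rel A c k
  have h0 := hc k
  have h1 := hc (k + 1)
  by_contra hne
  have : l = k + (l - k) := by abel
  rw [this] at hl
  have hm : l - k ≠ 0 := fun h => hne (sub_eq_zero.1 h).symm
  generalize l - k = m at hl hm
  revert m
  rw [forall6]
  have e1 : k + 1 + 1 = k + 2 := by rw [add_assoc]; rfl
  have e2 : k + 2 + 1 = k + 3 := by rw [add_assoc]; rfl
  have e3 : k + 3 + 1 = k + 4 := by rw [add_assoc]; rfl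
  have e4 : k + 4 + 1 = k + 5 := by rw [add_assoc]; rfl
  have e5 : k + 5 + 1 = k := by rw [add_assoc]; show k + 0 = k; rw [add_zero]
  rw [e1, e2, e3, e4, e5]
  refine ⟨fun _ h => h rfl, fun h _ => ?_, fun h _ => ?_, fun h _ => ?_, fun h _ => ?_,
    fun h _ => ?_⟩ <;> omega

theorem card_N1 {A D : ℤ} (k : Fin 6) :
    ((Hx A).filter (fun c => D - 2 ≤ w A k c + w A (k + 1) c ∧ w A k c + w A (k + 1) c ≤ D + 2 ∧
      (w A k c ≤ 1 ∨ w A (k + 1) c ≤ 1))).card ≤ 100 := by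
  classical
  have h1 : ((Hx A).filter (fun c => D - 2 ≤ w A k c + w A (k + 1) c ∧
      w A k c + w A (k + 1) c ≤ D + 2 ∧ (w A k c ≤ 1 ∨ w A (k + 1) c ≤ 1))).card ≤
      ((Finset.Icc (0 : ℤ) 1 ×ˢ Finset.Icc (D - 3) (D + 2)) ∪
        (Finset.Icc (D - 3) (D + 2) ×ˢ Finset.Icc (0 : ℤ) 1)).card := by
    refine Finset.card_le_card_of_injOn (fun c => (w A k c, w A (k + 1) c)) ?_ ?_
    · intro c h
      simp only [Finset.coe_filter, mem_ofPred_eq, mem_Hx] at h
      have ha := h.1 k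
      have hb := h.1 (k + 1)
      simp only [Finset.coe_union, Finset.coe_product, Finset.coe_Icc, Set.mem_union,
        Set.mem_prod, Set.mem_Icc]
      omega
    · intro c _ c' _ h
      simp only [Prod.mk.injEq] at h
      exact w_inj A k h.1 h.2
  refine h1.trans ((Finset.card_union_le _ _).trans ?_)
  rw [Finset.card_product, Finset.card_product, Int.card_Icc, Int.card_Icc]
  have : (D + 2 + 1 - (D - 3)).toNat = 6 := by
    have h : D + 2 + 1 - (D - 3) = 6 := by ring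
    rw [h]; rfl
  rw [this]
  have h2 : ((1 : ℤ) + 1 - 0).toNat = 2 := rfl
  rw [h2]
  norm_num

end CB

open CB

theorem card_bigK {A D : ℤ} (hD : 10 ≤ D) (hA : 4 * D ≤ A) :
    3 * A ^ 2 + 3 * A + 1 - 3 * (D - 2) * (D - 1) - 1000 ≤ ((bigK A D).card : ℤ) ∧
      ((bigK A D).card : ℤ) ≤ 3 * A ^ 2 + 3 * A + 1 - 3 * (D - 2) * (D - 1) := by
  classical
  set T : Fin 6 → Finset (ℤ × ℤ) := fun k =>
    (Hx A).filter (fun c => w A k c + w A (k + 1) c ≤ D - 3) with hT
  set N : Fin 6 → Finset (ℤ × ℤ) := fun k =>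
    (Hx A).filter (fun c => D - 2 ≤ w A k c + w A (k + 1) c ∧ w A k c + w A (k + 1) c ≤ D + 2 ∧
      (w A k c ≤ 1 ∨ w A (k + 1) c ≤ 1)) with hN
  have hcT : ((Finset.univ.biUnion T).card : ℤ) = 3 * (D - 2) * (D - 1) := by
    rw [Finset.card_biUnion]
    · have h1 : ∀ k, (T k).card = (Tri D).card := fun k => card_T1 hD hA k
      rw [Finset.sum_congr rfl fun k _ => h1 k, Finset.sum_const, Finset.card_univ,
        Fintype.card_fin, nsmul_eq_mul]
      have h2 := card_Tri (D := D) (by omega)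
      push_cast
      linarith
    · intro k _ l _ hkl
      rw [Function.onFun, Finset.disjoint_left]
      intro c h1 h2
      simp only [hT, Finset.mem_filter, mem_Hx] at h1 h2
      exact hkl (corner_unique hD hA h1.1 (by omega) (by omega))
  have hcN : (Finset.univ.biUnion N).card ≤ 600 := by
    refine Finset.card_biUnion_le.trans ?_
    refine (Finset.sum_le_sum fun k _ => card_N1 k).trans ?_
    simp
  have hBsub : bigK A D ∪ Finset.univ.biUnion T ⊆ Hx A := by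
    intro c hc
    rw [Finset.mem_union, Finset.mem_biUnion] at hc
    rcases hc with hc | ⟨k, _, hc⟩
    · rw [mem_Hx]
      rw [bigK, Finset.mem_filter] at hc
      exact fun k => (hc.2 k).1
    · exact (Finset.mem_filter.1 hc).1
  have hcov : Hx A ⊆ (bigK A D ∪ Finset.univ.biUnion T) ∪ Finset.univ.biUnion N := by
    intro c hc
    have hw := mem_Hx.1 hc
    by_cases h1 : ∃ k, c ∈ T k
    · obtain ⟨k, hk⟩ := h1
      exact Finset.mem_union_left _ (Finset.mem_union_right _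
        (Finset.mem_biUnion.2 ⟨k, Finset.mem_univ _, hk⟩))
    by_cases h2 : ∃ k, c ∈ N k
    · obtain ⟨k, hk⟩ := h2
      exact Finset.mem_union_right _ (Finset.mem_biUnion.2 ⟨k, Finset.mem_univ _, hk⟩)
    push Not at h1 h2
    refine Finset.mem_union_left _ (Finset.mem_union_left _ ?_)
    rw [bigK, Finset.mem_filter]
    have h0 : c ∈ Finset.Icc (-A) A ×ˢ Finset.Icc (-A) A := (Finset.mem_filter.1 hc).1
    refine ⟨h0, fun k => ?_⟩
    have h3 := h1 k
    have h4 := h2 k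
    have h5 := hw k
    simp only [hT, hN, Finset.mem_filter, hc, true_and] at h3 h4
    refine ⟨h5, by omega, ?_⟩
    intro h6
    apply h4
    exact ⟨by omega, h6.1, h6.2⟩
  have hdis : Disjoint (bigK A D) (Finset.univ.biUnion T) := by
    rw [Finset.disjoint_left]
    intro c h1 h2
    rw [Finset.mem_biUnion] at h2
    obtain ⟨k, _, h2⟩ := h2
    simp only [hT, Finset.mem_filter] at h2
    rw [bigK, Finset.mem_filter] at h1
    have h3 := (h1.2 k).2.1
    omega
  have hle := Finset.card_le_card hBsub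
  have hge := (Finset.card_le_card hcov).trans (Finset.card_union_le _ _)
  rw [Finset.card_union_of_disjoint hdis] at hle hge
  have hHx := card_Hx (A := A) (by omega)
  constructor
  · have : ((Hx A).card : ℤ) ≤ (bigK A D).card + (Finset.univ.biUnion T).card + 600 := by
      exact_mod_cast hge.trans (by omega)
    linarith
  · have : ((bigK A D).card : ℤ) + (Finset.univ.biUnion T).card ≤ (Hx A).card := by
      exact_mod_cast hle
    linarith

end Pool.Agent.Helper79.HC
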