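import Pool.Agent.Helper27.HC.CardBigK

/-!
# Module HC-13b: upper bounds for the numbers of cells of the types 0, ..., 4
-/

namespace Pool.Agent.Helper79.HC

open MeasureTheory Set

namespace CB

theorem card_le6 {S : Finset (ℤ × ℤ)} (F : Fin 6 → Finset (ℤ × ℤ)) {n : ℕ}
    (hcov : ∀ c ∈ S, ∃ k, c ∈ F k) (hF : ∀ k, (F k).card ≤ n) : S.card ≤ 6 * n := by
  classical
  have h1 : S ⊆ Finset.univ.biUnion F := by
    intro c hc
    obtain ⟨k, hk⟩ := hcov c hc
    exact Finset.mem_biUnion.2 ⟨k, Finset.mem_univ _, hk⟩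
  refine (Finset.card_le_card h1).trans (Finset.card_biUnion_le.trans ?_)
  refine (Finset.sum_le_sum fun k _ => hF k).trans ?_
  simp

theorem ty_T {A D : ℤ} {c : ℤ × ℤ} (hc : InK A D c) (m : Fin 4)
    (h : (ty A D c).1 = m.castLE (by norm_num)) :
    ∃ k, w A k c + w A (k + 1) c = D - 2 + (m : ℕ) := by
  unfold ty at h
  by_cases h1 : ∃ k : Fin 6, w A k c + w A (k + 1) c ≤ D + 1
  · rw [dif_pos h1] at h
    refine ⟨h1.choose, ?_⟩
    have h2 := h1.choose_spec
    have h3 := (hc h1.choose).2.1
    generalize h1.choose = k at h h2 h3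
    simp only at h
    have hm := congrArg Fin.val h
    rw [Fin.val_castLE] at hm
    rw [← hm]
    split_ifs with e1 e2 e3
    · simpa using e1
    · rw [e2]; norm_num; ring
    · rw [e3]; norm_num
    · have : ((3 : Fin 6) : ℕ) = 3 := rfl
      rw [this]; push_cast; omega
  · rw [dif_neg h1] at h
    by_cases h2 : ∃ k : Fin 6, w A k c = 0
    · rw [dif_pos h2] at h
      have hm := congrArg Fin.val h
      rw [Fin.val_castLE] at hm
      have h3 := m.2
      have h4 : ((4 : Fin 6) : ℕ) = 4 := rfl
      simp only at hm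
      omega
    · rw [dif_neg h2] at h
      have hm := congrArg Fin.val h
      rw [Fin.val_castLE] at hm
      have h3 := m.2
      have h4 : ((5 : Fin 6) : ℕ) = 5 := rfl
      simp only at hm
      omega

theorem ty_Z {A D : ℤ} {c : ℤ × ℤ} (h : (ty A D c).1 = 4) : ∃ k, w A k c = 0 := by
  unfold ty at h
  by_cases h1 : ∃ k : Fin 6, w A k c + w A (k + 1) c ≤ D + 1
  · rw [dif_pos h1] at h
    exfalso
    simp only at h
    split_ifs at h <;> exact absurd h (by decide)
  · rw [dif_neg h1] at h
    by_cases h2 : ∃ k : Fin 6, w A k c = 0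
    · exact h2
    · rw [dif_neg h2] at h
      exact absurd h (by decide)

end CB

open CB

open Classical in
theorem card_T {A D : ℤ} (hD : 10 ≤ D) (hA : 4 * D ≤ A) (m : Fin 4) :
    (((bigK A D).filter (fun c => (ty A D c).1 = m.castLE (by norm_num))).card : ℤ) ≤
      6 * (D - 5 + (m : ℕ)) := by
  have h1 : ((bigK A D).filter (fun c => (ty A D c).1 = m.castLE (by norm_num))).card ≤
      6 * (D - 5 + (m : ℕ)).toNat := by
    refine card_le6 (fun k => (bigK A D).filter
      (fun c => w A k c + w A (k + 1) c = D - 2 + (m : ℕ))) ?_ ?_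
    · intro c hc
      rw [Finset.mem_filter] at hc
      have hK : InK A D c := by
        have := hc.1
        rw [bigK, Finset.mem_filter] at this
        exact this.2
      obtain ⟨k, hk⟩ := ty_T hK m hc.2
      exact ⟨k, Finset.mem_filter.2 ⟨hc.1, hk⟩⟩
    · intro k
      have h2 : ((bigK A D).filter
          (fun c => w A k c + w A (k + 1) c = D - 2 + (m : ℕ))).card ≤
          (Finset.Icc (2 : ℤ) (D - 4 + (m : ℕ))).card := by
        refine Finset.card_le_card_of_injOn (fun c => w A k c) ?_ ?_
        · intro c hc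
          rw [Finset.mem_coe, Finset.mem_filter, bigK, Finset.mem_filter] at hc
          have h3 := hc.2
          have h4 := (hc.1.2 k).2.2
          have hm := m.2
          rw [Finset.mem_coe, Finset.mem_Icc]
          have h5 : ¬ (w A k c ≤ 1 ∨ w A (k + 1) c ≤ 1) := fun h => h4 ⟨by omega, h⟩
          show 2 ≤ w A k c ∧ w A k c ≤ D - 4 + (m : ℕ)
          omega
        · intro c hc c' hc' h
          rw [Finset.mem_coe, Finset.mem_filter] at hc hc'
          have h3 := hc.2
          have h4 := hc'.2
          have h5 : w A k c = w A k c' := h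
          exact w_inj A k h5 (by omega)
      refine h2.trans ?_
      rw [Int.card_Icc]
      apply Int.toNat_le_toNat
      omega
  have h2 : (((bigK A D).filter (fun c => (ty A D c).1 = m.castLE (by norm_num))).card : ℤ) ≤
      ((6 * (D - 5 + (m : ℕ)).toNat : ℕ) : ℤ) := by exact_mod_cast h1
  refine h2.trans ?_
  rw [Nat.cast_mul, Int.toNat_of_nonneg (by omega)]
  norm_num

open Classical in
theorem card_Z {A D : ℤ} (hD : 10 ≤ D) (hA : 4 * D ≤ A) :
    (((bigK A D).filter (fun c => (ty A D c).1 = 4)).card : ℤ) ≤ 6 * (A - 2 * D - 5) := by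
  have h1 : ((bigK A D).filter (fun c => (ty A D c).1 = 4)).card ≤
      6 * (A - 2 * D - 5).toNat := by
    refine card_le6 (fun k => (bigK A D).filter (fun c => w A k c = 0)) ?_ ?_
    · intro c hc
      rw [Finset.mem_filter] at hc
      obtain ⟨k, hk⟩ := ty_Z hc.2
      exact ⟨k, Finset.mem_filter.2 ⟨hc.1, hk⟩⟩
    · intro k
      have h2 : ((bigK A D).filter (fun c => w A k c = 0)).card ≤
          (Finset.Icc (D + 3) (A - D - 3)).card := by
        refine Finset.card_le_card_of_injOn (fun c => w A (k + 1) c) ?_ ?_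
        · intro c hc
          rw [Finset.mem_coe, Finset.mem_filter, bigK, Finset.mem_filter] at hc
          have h3 := hc.2
          have h4 := (hc.1.2 k).2.2
          have h5 := (hc.1.2 (k + 5)).2.2
          have e5 : k + 5 + 1 = k := by rw [add_assoc]; show k + 0 = k; rw [add_zero]
          rw [e5] at h5
          have h6 := (w_rel A c k).2.2.2
          rw [Finset.mem_coe, Finset.mem_Icc]
          have h7 : ¬ w A k c + w A (k + 1) c ≤ D + 2 := fun h => h4 ⟨h, Or.inl (by omega)⟩
          have h8 : ¬ w A (k + 5) c + w A k c ≤ D + 2 := fun h => h5 ⟨h, Or.inr (by omega)⟩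
          show D + 3 ≤ w A (k + 1) c ∧ w A (k + 1) c ≤ A - D - 3
          omega
        · intro c hc c' hc' h
          rw [Finset.mem_coe, Finset.mem_filter] at hc hc'
          exact w_inj A k (hc.2.trans hc'.2.symm) h
      refine h2.trans ?_
      rw [Int.card_Icc]
      apply Int.toNat_le_toNat
      omega
  have h2 : (((bigK A D).filter (fun c => (ty A D c).1 = 4)).card : ℤ) ≤
      ((6 * (A - 2 * D - 5).toNat : ℕ) : ℤ) := by exact_mod_cast h1
  refine h2.trans ?_
  rw [Nat.cast_mul, Int.toNat_of_nonneg (by omega)]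
  norm_num

open Classical in
theorem card_near {A D : ℤ} (hD : 10 ≤ D) (hA : 4 * D ≤ A) :
    ((bigK A D).filter (Near A D)).card ≤ 1000 := by
  have _h := hD
  have _h' := hA
  have h1 : ((bigK A D).filter (Near A D)).card ≤ 6 * 100 := by
    refine card_le6 (fun k => (bigK A D).filter (fun c => w A k c + w A (k + 1) c ≤ D + 4 ∧
      (w A k c ≤ 3 ∨ w A (k + 1) c ≤ 3))) ?_ ?_
    · intro c hc
      rw [Finset.mem_filter] at hc
      obtain ⟨k, hk⟩ := hc.2
      exact ⟨k, Finset.mem_filter.2 ⟨hc.1, hk⟩⟩
    · intro k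
      have h2 : ((bigK A D).filter (fun c => w A k c + w A (k + 1) c ≤ D + 4 ∧
          (w A k c ≤ 3 ∨ w A (k + 1) c ≤ 3))).card ≤
          ((Finset.Icc (0 : ℤ) 3 ×ˢ Finset.Icc (D - 5) (D + 4)) ∪
            (Finset.Icc (D - 5) (D + 4) ×ˢ Finset.Icc (0 : ℤ) 3)).card := by
        refine Finset.card_le_card_of_injOn (fun c => (w A k c, w A (k + 1) c)) ?_ ?_
        · intro c hc
          rw [Finset.mem_coe, Finset.mem_filter, bigK, Finset.mem_filter] at hc
          have h3 := hc.2
          have h4 := (hc.1.2 k).1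
          have h5 := (hc.1.2 k).2.1
          have h6 := (hc.1.2 (k + 1)).1
          simp only [Finset.coe_union, Finset.coe_product, Finset.coe_Icc, Set.mem_union,
            Set.mem_prod, Set.mem_Icc]
          omega
        · intro c _ c' _ h
          simp only [Prod.mk.injEq] at h
          exact w_inj A k h.1 h.2
      refine h2.trans ((Finset.card_union_le _ _).trans ?_)
      rw [Finset.card_product, Finset.card_product, Int.card_Icc, Int.card_Icc]
      have h3 : (D + 4 + 1 - (D - 5)).toNat = 10 := by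
        have h : D + 4 + 1 - (D - 5) = 10 := by ring
        rw [h]; rfl
      have h4 : ((3 : ℤ) + 1 - 0).toNat = 4 := rfl
      rw [h3, h4]
      norm_num
  omega

end Pool.Agent.Helper79.HC
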